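import Pool.Agent.H36.KBX.Coef
import Pool.Agent.H50.LBL.Pl1

/-!
The own slope along a polynomial path as a bilinear expression: the derivative of a polynomial `S`
at the point `(sum_e beta i e T^e)_i` is linear in the coefficients of `S`, polynomial in the
coefficients `beta` of the path and polynomial in the time `T`, with universal polynomials in `T`.
-/

set_option autoImplicit false

namespace Pool.LBL

open Finset
open Pool.Agent.H36.KBX (bx mem_bx)

/-- The path with indeterminate coefficients, over the polynomials in the time. -/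
noncomputable def upath (k E : ℕ) (i : Fin k) :
    MvPolynomial (Fin k × Fin (E + 1)) (Polynomial ℝ) :=
  ∑ e : Fin (E + 1), MvPolynomial.X (i, e) * MvPolynomial.C (Polynomial.X ^ (e : ℕ))

/-- The derivative of a monomial along the path. -/
noncomputable def umon (k E : ℕ) (l : Fin k) (α : Fin k →₀ ℕ) :
    MvPolynomial (Fin k × Fin (E + 1)) (Polynomial ℝ) :=
  MvPolynomial.eval₂ (MvPolynomial.C.comp Polynomial.C) (upath k E)
    (MvPolynomial.pderiv l (MvPolynomial.monomial α (1 : ℝ)))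

theorem umon_eval (k E : ℕ) (l : Fin k) (α : Fin k →₀ ℕ) (T : ℝ)
    (β : Fin k → Fin (E + 1) → ℝ) :
    MvPolynomial.eval (fun i => ∑ e : Fin (E + 1), β i e * T ^ (e : ℕ))
      (MvPolynomial.pderiv l (MvPolynomial.monomial α (1 : ℝ))) =
    MvPolynomial.eval₂ (Polynomial.evalRingHom T) (fun x => β x.1 x.2) (umon k E l α) := by
  unfold umon
  have h := MvPolynomial.hom_eval₂
    (MvPolynomial.pderiv l (MvPolynomial.monomial α (1 : ℝ)))
    (MvPolynomial.C.comp Polynomial.C : ℝ →+* MvPolynomial (Fin k × Fin (E + 1)) (Polynomial ℝ))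
    (MvPolynomial.eval₂Hom (Polynomial.evalRingHom T) (fun x : Fin k × Fin (E + 1) => β x.1 x.2))
    (upath k E)
  rw [MvPolynomial.coe_eval₂Hom] at h
  rw [h]
  have h1 : ((MvPolynomial.eval₂Hom (Polynomial.evalRingHom T)
      (fun x : Fin k × Fin (E + 1) => β x.1 x.2)).comp (MvPolynomial.C.comp Polynomial.C)) =
      RingHom.id ℝ := by
    ext r
    simp
  have h2 : (fun i => MvPolynomial.eval₂ (Polynomial.evalRingHom T)
      (fun x : Fin k × Fin (E + 1) => β x.1 x.2) (upath k E i)) =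
      fun i => ∑ e : Fin (E + 1), β i e * T ^ (e : ℕ) := by
    funext i
    simp only [upath]
    rw [← MvPolynomial.coe_eval₂Hom, map_sum]
    refine Finset.sum_congr rfl fun e _ => ?_
    rw [map_mul, MvPolynomial.coe_eval₂Hom, MvPolynomial.eval₂_X, MvPolynomial.eval₂_C]
    simp
  rw [h1, h2]
  rfl

/-- The exponents of the path coefficients. -/
noncomputable def uexp (k D E : ℕ) : Finset ((Fin k × Fin (E + 1)) →₀ ℕ) := by
  classical
  exact (Finset.univ : Finset (Fin k)).biUnion fun l => ((bx k D).erase 0).biUnion fun α =>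
    (umon k E l α).support

/-- The universal polynomials in the time. -/
noncomputable def ucf (k D E : ℕ) (l : Fin k) (γ : {γ // γ ∈ uexp k D E})
    (α : {α // α ∈ (bx k D).erase 0}) : Polynomial ℝ :=
  MvPolynomial.coeff γ.1 (umon k E l α.1)

theorem umon_sum (k D E : ℕ) (l : Fin k) (α : {α // α ∈ (bx k D).erase 0}) (T : ℝ)
    (β : Fin k → Fin (E + 1) → ℝ) :
    MvPolynomial.eval₂ (Polynomial.evalRingHom T) (fun x : Fin k × Fin (E + 1) => β x.1 x.2)
      (umon k E l α.1) =
    ∑ γ : {γ // γ ∈ uexp k D E}, (ucf k D E l γ α).eval T *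
      γ.1.prod fun x n => β x.1 x.2 ^ n := by
  classical
  rw [MvPolynomial.eval₂_eq]
  have hsub : (umon k E l α.1).support ⊆ uexp k D E := by
    intro γ hγ
    unfold uexp
    rw [Finset.mem_biUnion]
    refine ⟨l, Finset.mem_univ _, ?_⟩
    rw [Finset.mem_biUnion]
    exact ⟨α.1, α.2, hγ⟩
  rw [Finset.sum_subset hsub (fun γ _ hγ => by
    rw [MvPolynomial.notMem_support_iff.1 hγ, map_zero, zero_mul])]
  rw [← Finset.sum_coe_sort (uexp k D E)]
  refine Finset.sum_congr rfl fun γ _ => ?_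
  rfl

/-- **UNIV.** The derivatives of a polynomial along a polynomial path. -/
theorem univ_eval (k D E : ℕ) (S : MvPolynomial (Fin k) ℝ)
    (hS : ∀ α, MvPolynomial.coeff α S ≠ 0 → α ∈ bx k D) (T : ℝ)
    (β : Fin k → Fin (E + 1) → ℝ) (l : Fin k) :
    MvPolynomial.eval (fun i => ∑ e : Fin (E + 1), β i e * T ^ (e : ℕ))
      (MvPolynomial.pderiv l S) =
    ∑ γ : {γ // γ ∈ uexp k D E},
      (∑ α : {α // α ∈ (bx k D).erase 0}, (ucf k D E l γ α).eval T * MvPolynomial.coeff α.1 S) *
        γ.1.prod fun x n => β x.1 x.2 ^ n := by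
  classical
  have hsup : S.support ⊆ bx k D := fun α hα => hS α (MvPolynomial.mem_support_iff.1 hα)
  have h1 : S = ∑ α ∈ bx k D, MvPolynomial.monomial α (MvPolynomial.coeff α S) := by
    conv_lhs => rw [MvPolynomial.as_sum S]
    refine Finset.sum_subset hsup fun α _ hα => ?_
    rw [MvPolynomial.notMem_support_iff.1 hα, map_zero]
  have h0 : (0 : Fin k →₀ ℕ) ∈ bx k D := by
    rw [mem_bx]; intro i; exact Nat.zero_le _
  have h2 : MvPolynomial.pderiv l S = ∑ α ∈ (bx k D).erase 0,
      MvPolynomial.C (MvPolynomial.coeff α S) *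
        MvPolynomial.pderiv l (MvPolynomial.monomial α (1 : ℝ)) := by
    conv_lhs => rw [h1]
    rw [map_sum, ← Finset.add_sum_erase _ _ h0]
    have e0 : MvPolynomial.pderiv l (MvPolynomial.monomial (0 : Fin k →₀ ℕ)
        (MvPolynomial.coeff 0 S)) = 0 := by
      rw [MvPolynomial.pderiv_monomial]
      simp
    rw [e0, zero_add]
    refine Finset.sum_congr rfl fun α _ => ?_
    rw [← MvPolynomial.pderiv_C_mul, MvPolynomial.C_mul_monomial, mul_one]
  rw [h2, map_sum, ← Finset.sum_coe_sort ((bx k D).erase 0)]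
  have h3 : ∀ α : {α // α ∈ (bx k D).erase 0},
      MvPolynomial.eval (fun i => ∑ e : Fin (E + 1), β i e * T ^ (e : ℕ))
        (MvPolynomial.C (MvPolynomial.coeff α.1 S) *
          MvPolynomial.pderiv l (MvPolynomial.monomial α.1 (1 : ℝ))) =
      ∑ γ : {γ // γ ∈ uexp k D E}, ((ucf k D E l γ α).eval T * MvPolynomial.coeff α.1 S) *
        γ.1.prod fun x n => β x.1 x.2 ^ n := by
    intro α
    rw [map_mul, MvPolynomial.eval_C, umon_eval, umon_sum k D E l α T β, Finset.mul_sum]
    refine Finset.sum_congr rfl fun γ _ => ?_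
    ring
  rw [Finset.sum_congr rfl fun α _ => h3 α, Finset.sum_comm]
  refine Finset.sum_congr rfl fun γ _ => ?_
  rw [Finset.sum_mul]

/-- Bounds of the universal polynomials. -/
theorem ucf_bound (k D E : ℕ) : ∃ (b : ℝ) (e : ℕ), 1 ≤ b ∧
    (∀ l γ α, l1 (ucf k D E l γ α) ≤ b) ∧ ∀ l γ α, (ucf k D E l γ α).natDegree ≤ e := by
  classical
  refine ⟨1 + ∑ l, ∑ γ, ∑ α, l1 (ucf k D E l γ α), ∑ l, ∑ γ, ∑ α, (ucf k D E l γ α).natDegree,
    ?_, ?_, ?_⟩
  · have : 0 ≤ ∑ l, ∑ γ, ∑ α, l1 (ucf k D E l γ α) :=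
      Finset.sum_nonneg fun _ _ => Finset.sum_nonneg fun _ _ => Finset.sum_nonneg fun _ _ => l1_nn _
    linarith
  · intro l γ α
    have h1 := Finset.single_le_sum (f := fun α => l1 (ucf k D E l γ α))
      (fun α _ => l1_nn _) (Finset.mem_univ α)
    have h2 := Finset.single_le_sum (f := fun γ => ∑ α, l1 (ucf k D E l γ α))
      (fun γ _ => Finset.sum_nonneg fun _ _ => l1_nn _) (Finset.mem_univ γ)
    have h3 := Finset.single_le_sum (f := fun l => ∑ γ, ∑ α, l1 (ucf k D E l γ α))
      (fun l _ => Finset.sum_nonneg fun _ _ => Finset.sum_nonneg fun _ _ => l1_nn _)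
      (Finset.mem_univ l)
    linarith
  · intro l γ α
    have h1 := Finset.single_le_sum (f := fun α => (ucf k D E l γ α).natDegree)
      (fun α _ => Nat.zero_le _) (Finset.mem_univ α)
    have h2 := Finset.single_le_sum (f := fun γ => ∑ α, (ucf k D E l γ α).natDegree)
      (fun γ _ => Nat.zero_le _) (Finset.mem_univ γ)
    have h3 := Finset.single_le_sum (f := fun l => ∑ γ, ∑ α, (ucf k D E l γ α).natDegree)
      (fun l _ => Nat.zero_le _) (Finset.mem_univ l)
    omega

/-- The monomials in the coefficients of the path are bounded. -/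
theorem umon_bdd (k D E : ℕ) (C₀ : ℝ) (hC₀ : 1 ≤ C₀) : ∃ C : ℝ, 1 ≤ C ∧
    ∀ (β : Fin k → Fin (E + 1) → ℝ), (∀ i e, |β i e| ≤ C₀) →
      ∀ γ : {γ // γ ∈ uexp k D E}, |γ.1.prod fun x n => β x.1 x.2 ^ n| ≤ C := by
  classical
  refine ⟨∑ γ ∈ insert 0 (uexp k D E), γ.prod fun _ n => C₀ ^ n, ?_, ?_⟩
  · have h1 := Finset.single_le_sum (f := fun γ : (Fin k × Fin (E + 1)) →₀ ℕ =>
      γ.prod fun _ n => C₀ ^ n) (s := insert 0 (uexp k D E))
      (fun γ _ => Finset.prod_nonneg fun _ _ => by positivity) (Finset.mem_insert_self _ _)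
    simpa using h1
  · intro β hβ γ
    have h1 := Finset.single_le_sum (f := fun γ : (Fin k × Fin (E + 1)) →₀ ℕ =>
      γ.prod fun _ n => C₀ ^ n) (s := insert 0 (uexp k D E))
      (fun γ _ => Finset.prod_nonneg fun _ _ => by positivity) (Finset.mem_insert_of_mem γ.2)
    refine le_trans ?_ h1
    simp only [Finsupp.prod]
    rw [Finset.abs_prod]
    refine Finset.prod_le_prod (fun _ _ => abs_nonneg _) fun x _ => ?_
    rw [abs_pow]
    exact pow_le_pow_left₀ (abs_nonneg _) (hβ _ _) _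

end Pool.LBL
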